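import Mathlib

/-!
Project NV (helper110), CT: generic linear coordinates and the Gauss lemma.
-/

set_option autoImplicit false

open MvPolynomial

namespace Pool.Agent.N776.CT

section

variable {A : Type*} [CommRing A] [IsDomain A] {k : Type*} [Field k] [Infinite k] [Algebra k A]
  [FaithfulSMul k A] {m : ℕ}

omit [FaithfulSMul k A] [Infinite k] in
/-- nonvanishing at constants -/
theorem exists_const_ne [Infinite k] (G : MvPolynomial (Fin m) A) (hG : G ≠ 0) :
    ∃ c : Fin m → k, eval (fun i => algebraMap k A (c i)) G ≠ 0 := by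
  by_contra hcon
  push Not at hcon
  apply hG
  refine funext_set (fun _ => Set.range (algebraMap k A)) (fun _ => ?_) ?_
  · exact Set.infinite_range_of_injective (RingHom.injective _)
  · intro x hx
    rw [Set.mem_univ_pi] at hx
    choose c hc using hx
    rw [map_zero]
    have := hcon c
    rwa [funext hc] at this

omit [IsDomain A] in
/-- the leading form -/
theorem top_ne {σ : Type*} (F : MvPolynomial σ A) (hF : F ≠ 0) :
    homogeneousComponent F.totalDegree F ≠ 0 := by
  obtain ⟨d, hd, hd'⟩ : ∃ d ∈ F.support, F.totalDegree = d.degree := by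
    obtain ⟨d, hd, h⟩ := Finset.exists_mem_eq_sup F.support
      (by rwa [Finset.nonempty_iff_ne_empty, Ne, support_eq_empty])
      (fun s => s.sum fun _ e => e)
    exact ⟨d, hd, h⟩
  intro h
  have h1 := congrArg (coeff d) h
  rw [coeff_homogeneousComponent, if_pos hd'.symm, coeff_zero] at h1
  exact (mem_support_iff.1 hd) h1

/-- the linear change of the variables: `X i ↦ X i + c i X 0` for `i ≠ 0`, `X 0 ↦ c 0 X 0` -/
noncomputable def sub (c : Fin (m + 1) → A) :
    MvPolynomial (Fin (m + 1)) A →ₐ[A] MvPolynomial (Fin (m + 1)) A :=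
  aeval fun i => (if i = 0 then 0 else X i) + C (c i) * X 0

theorem sub_totalDegree_le (c : Fin (m + 1) → A) (F : MvPolynomial (Fin (m + 1)) A) :
    (sub c F).totalDegree ≤ F.totalDegree := by
  have h1 : sub c F = ∑ d ∈ F.support, C (F.coeff d) *
      ∏ i, ((if i = 0 then 0 else X i) + C (c i) * X 0) ^ d i := by
    rw [sub, aeval_def, eval₂_eq']
    rfl
  rw [h1]
  refine (totalDegree_finsetSum_le (d := F.totalDegree) fun d hd => ?_)
  refine (totalDegree_mul _ _).trans ?_
  rw [totalDegree_C, zero_add]
  refine (totalDegree_finsetProd _ _).trans ?_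
  refine (Finset.sum_le_sum (g := fun i => d i) fun i _ => ?_).trans ?_
  · refine (totalDegree_pow _ _).trans ?_
    have h2 : ((if i = 0 then (0 : MvPolynomial (Fin (m + 1)) A) else X i) +
        C (c i) * X 0).totalDegree ≤ 1 := by
      refine (totalDegree_add _ _).trans (max_le ?_ ?_)
      · split_ifs
        · simp
        · exact (totalDegree_X _).le
      · refine (totalDegree_mul _ _).trans ?_
        rw [totalDegree_C, zero_add]
        exact (totalDegree_X _).le
    calc d i * _ ≤ d i * 1 := Nat.mul_le_mul_left _ h2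
      _ = d i := mul_one _
  · have h3 := le_totalDegree hd
    rwa [Finsupp.sum_fintype _ _ (fun _ => rfl)] at h3

/-- the restriction to a line -/
noncomputable def rho : MvPolynomial (Fin (m + 1)) A →ₐ[A] Polynomial A :=
  aeval fun i => if i = 0 then Polynomial.X else 0

omit [IsDomain A] in
theorem rho_natDegree_le (F : MvPolynomial (Fin (m + 1)) A) :
    (rho F).natDegree ≤ degreeOf 0 F := by
  have h1 : (rho F : Polynomial A) = (finSuccEquiv A m F).map (eval fun _ => (0 : A)) := by
    have h2 : (rho : MvPolynomial (Fin (m + 1)) A →ₐ[A] Polynomial A).toRingHom =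
        (Polynomial.mapRingHom (eval fun _ => (0 : A))).comp
          (finSuccEquiv A m).toAlgHom.toRingHom := by
      apply MvPolynomial.ringHom_ext
      · intro r
        simp [rho, finSuccEquiv_apply]
      · intro i
        refine Fin.cases ?_ (fun j => ?_) i
        · simp [rho, finSuccEquiv_apply]
        · simp [rho, finSuccEquiv_apply]
    exact congrArg (fun f => f F) h2
  rw [h1, ← natDegree_finSuccEquiv]
  exact Polynomial.natDegree_map_le

omit [IsDomain A] in
theorem rho_sub (c : Fin (m + 1) → A) (F : MvPolynomial (Fin (m + 1)) A) :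
    (rho (sub c F) : Polynomial A) = ∑ d ∈ F.support,
      Polynomial.C (F.coeff d * ∏ i, c i ^ d i) * Polynomial.X ^ d.degree := by
  have h1 : (rho.comp (sub c) : MvPolynomial (Fin (m + 1)) A →ₐ[A] Polynomial A) =
      aeval fun i => Polynomial.C (c i) * Polynomial.X := by
    apply MvPolynomial.algHom_ext
    intro i
    rw [AlgHom.comp_apply, sub, aeval_X, rho, aeval_X, map_add, map_mul, aeval_X, if_pos rfl]
    by_cases hi : i = 0
    · rw [if_pos hi, map_zero, zero_add, algHom_C]
      rfl
    · rw [if_neg hi, aeval_X, if_neg hi, zero_add, algHom_C]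
      rfl
  rw [← AlgHom.comp_apply, h1, aeval_def, eval₂_eq']
  refine Finset.sum_congr rfl fun d _ => ?_
  rw [Polynomial.C_mul, mul_assoc]
  congr 1
  simp only [mul_pow]
  rw [Finset.prod_mul_distrib, Finset.prod_pow_eq_pow_sum, map_prod]
  congr 1
  · refine Finset.prod_congr rfl fun i _ => ?_
    rw [Polynomial.C_pow]
  · rw [Finsupp.degree_eq_sum]

omit [IsDomain A] in
theorem le_degreeOf_sub (c : Fin (m + 1) → A) (F : MvPolynomial (Fin (m + 1)) A)
    (hc : eval c (homogeneousComponent F.totalDegree F) ≠ 0) :
    F.totalDegree ≤ degreeOf 0 (sub c F) := by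
  refine le_trans ?_ (rho_natDegree_le _)
  apply Polynomial.le_natDegree_of_ne_zero
  rw [rho_sub, Polynomial.finsetSum_coeff]
  have h1 : eval c (homogeneousComponent F.totalDegree F) =
      ∑ d ∈ F.support, (Polynomial.C (F.coeff d * ∏ i, c i ^ d i) *
        Polynomial.X ^ d.degree).coeff F.totalDegree := by
    rw [homogeneousComponent_apply, map_sum, Finset.sum_filter]
    refine Finset.sum_congr rfl fun d _ => ?_
    rw [Polynomial.coeff_C_mul, Polynomial.coeff_X_pow]
    by_cases h : d.degree = F.totalDegree
    · rw [if_pos h, if_pos h.symm, mul_one, eval_monomial, Finsupp.prod_fintype _ _ (fun _ => pow_zero _)]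
    · rw [if_neg h, if_neg (fun h' => h h'.symm), mul_zero]
  rw [← h1]
  exact hc

omit [IsDomain A] in
theorem sub_ne_zero (c : Fin (m + 1) → A) (F : MvPolynomial (Fin (m + 1)) A)
    (hc : eval c (homogeneousComponent F.totalDegree F) ≠ 0) : sub c F ≠ 0 := by
  intro h0
  apply hc
  have h1 : eval c (homogeneousComponent F.totalDegree F) =
      (rho (sub c F) : Polynomial A).coeff F.totalDegree := by
    rw [rho_sub, Polynomial.finsetSum_coeff, homogeneousComponent_apply, map_sum,
      Finset.sum_filter]
    refine Finset.sum_congr rfl fun d _ => ?_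
    rw [Polynomial.coeff_C_mul, Polynomial.coeff_X_pow]
    by_cases h : d.degree = F.totalDegree
    · rw [if_pos h, if_pos h.symm, mul_one, eval_monomial, Finsupp.prod_fintype _ _ (fun _ => pow_zero _)]
    · rw [if_neg h, if_neg (fun h' => h h'.symm), mul_zero]
  rw [h1, h0, map_zero, Polynomial.coeff_zero]

/-- the factors of a polynomial whose degree in `X 0` is its total degree -/
theorem factor_deg {p q : MvPolynomial (Fin (m + 1)) A} (hpq : p * q ≠ 0)
    (h : (p * q).totalDegree ≤ degreeOf 0 (p * q)) : p.totalDegree = degreeOf 0 p := by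
  have hp : p ≠ 0 := left_ne_zero_of_mul hpq
  have hq : q ≠ 0 := right_ne_zero_of_mul hpq
  rw [totalDegree_mul_of_isDomain hp hq, degreeOf_mul_eq hp hq] at h
  have h1 := degreeOf_le_totalDegree p 0
  have h2 := degreeOf_le_totalDegree q 0
  omega

end

/-- an irreducible factor in the kernel of a homomorphism -/
theorem exists_irred {R S : Type*} [CommRing R] [IsDomain R] [UniqueFactorizationMonoid R]
    [CommRing S] [IsDomain S] (f : R →+* S) {F : R} (hF : F ≠ 0) (h : f F = 0) :
    ∃ p q : R, Irreducible p ∧ f p = 0 ∧ F = p * q := by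
  induction F using WfDvdMonoid.induction_on_irreducible with
  | zero => exact absurd rfl hF
  | unit u hu => exact absurd h (hu.map f).ne_zero
  | mul a p ha hp ih =>
    rw [map_mul, mul_eq_zero] at h
    rcases h with h | h
    · exact ⟨p, a, hp, h, rfl⟩
    · obtain ⟨p', q, h1, h2, h3⟩ := ih ha h
      exact ⟨p', p * q, h1, h2, by rw [h3]; ring⟩

/-- the degree of the minimal polynomial of a root of an irreducible polynomial over a UFD -/
theorem minpoly_deg {B L K : Type*} [CommRing B] [IsDomain B] [UniqueFactorizationMonoid B]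
    [Field L] [Algebra B L] [IsFractionRing B L] [Field K] [Algebra L K] {P : Polynomial B}
    (hP : Irreducible P) (h0 : 1 ≤ P.natDegree) {x : K}
    (hx : Polynomial.aeval x (P.map (algebraMap B L)) = 0) :
    (minpoly L x).natDegree = P.natDegree := by
  have hprim : P.IsPrimitive := hP.isPrimitive (by omega)
  have h1 : Irreducible (P.map (algebraMap B L)) :=
    (Polynomial.IsPrimitive.irreducible_iff_irreducible_map_fraction_map hprim).1 hP
  rw [← minpoly.eq_of_irreducible h1 hx, Polynomial.natDegree_mul_C (inv_ne_zero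
    (Polynomial.leadingCoeff_ne_zero.2 h1.ne_zero)),
    Polynomial.natDegree_map_eq_of_injective (IsFractionRing.injective B L)]

end Pool.Agent.N776.CT
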