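import Pool.Agent.N964.GX.Stm

/-!
# Partial summation (project GX of helper964, part PS)

By helper776.
-/

set_option autoImplicit false
set_option linter.all false

namespace Pool.Agent.N776.GXPS

open Pool.Agent.N964.GX (Qk)

lemma one_lt_log3 : 1 < Real.log 3 := by
  rw [Real.lt_log_iff_exp_lt (by norm_num)]
  have := Real.exp_one_lt_d9
  linarith

lemma ll3 : 0 < Real.log (Real.log 3) := Real.log_pos one_lt_log3

lemma one_lt_log {x : ℝ} (hx : 3 ≤ x) : 1 < Real.log x :=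
  one_lt_log3.trans_le (Real.log_le_log (by norm_num) hx)

lemma theta_half {k : ℕ} (hk : 1 ≤ k) : (1 / 2 : ℝ) ≤ (k : ℝ) / (k + 1) := by
  have h : (1 : ℝ) ≤ k := by exact_mod_cast hk
  rw [div_le_div_iff₀ (by norm_num) (by positivity)]
  linarith

theorem half_le_Qk {k : ℕ} (hk : 1 ≤ k) {x : ℝ} (hx : 3 ≤ x) : 1 / 2 ≤ Qk k x := by
  have h1 := one_lt_log hx
  have h2 := theta_half hk
  have h3 : 0 < Real.log (Real.log x) := Real.log_pos h1
  unfold Qk
  rw [le_div_iff₀ h3]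
  have h4 := Real.log_le_rpow_div (x := Real.log x) (by linarith) (ε := (k : ℝ) / (k + 1))
    (by linarith)
  rw [le_div_iff₀ (by linarith)] at h4
  nlinarith

theorem Qk_quasi {k : ℕ} (hk : 1 ≤ k) {u x : ℝ} (hu : 3 ≤ u) (hux : u ≤ x) :
    Qk k u ≤ (1 + 2 / Real.log (Real.log 3)) * Qk k x := by
  have h1 := one_lt_log hu
  have h1' := one_lt_log (hu.trans hux)
  have h2 := theta_half hk
  have h3 : 0 < Real.log (Real.log u) := Real.log_pos h1
  have h3' : 0 < Real.log (Real.log x) := Real.log_pos h1'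
  have hc : Real.log (Real.log 3) ≤ Real.log (Real.log u) :=
    Real.log_le_log (by linarith [one_lt_log3]) (Real.log_le_log (by norm_num) hu)
  have hc0 := ll3
  set c := Real.log (Real.log 3) with hcd
  set θ : ℝ := (k : ℝ) / (k + 1) with hθ
  set Lu := Real.log u with hLu
  set Lx := Real.log x with hLx
  have hL : Lu ≤ Lx := Real.log_le_log (by linarith) hux
  have hLu0 : 0 < Lu := by linarith
  obtain ⟨r, hr⟩ : ∃ r : ℝ, r = Lx / Lu := ⟨_, rfl⟩
  have hr1 : 1 ≤ r := by rw [hr, one_le_div hLu0]; exact hL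
  have hLxr : Lx = Lu * r := by rw [hr]; field_simp
  have e1 : Real.log Lx = Real.log Lu + Real.log r := by
    rw [hLxr, Real.log_mul (by linarith) (by linarith)]
  have e2 : Lx ^ θ = Lu ^ θ * r ^ θ := by
    rw [hLxr, Real.mul_rpow (by linarith) (by linarith)]
  have hrθ : 1 ≤ r ^ θ := Real.one_le_rpow hr1 (by linarith)
  have h5 : Real.log r ≤ 2 * r ^ θ := by
    have h4 := Real.log_le_rpow_div (x := r) (by linarith) (ε := θ) (by linarith)
    rw [le_div_iff₀ (by linarith)] at h4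
    have h6 : 0 ≤ Real.log r := Real.log_nonneg hr1
    nlinarith
  have hLuθ : 0 < Lu ^ θ := Real.rpow_pos_of_pos hLu0 _
  have h7 : Real.log Lx ≤ (1 + 2 / c) * (r ^ θ * Real.log Lu) := by
    have h8 : 2 * r ^ θ ≤ 2 / c * (r ^ θ * Real.log Lu) := by
      have h9 : 2 / c * (r ^ θ * Real.log Lu) = 2 * r ^ θ * (Real.log Lu / c) := by
        field_simp
      rw [h9]
      have h10 : 1 ≤ Real.log Lu / c := by rw [one_le_div hc0]; exact hc
      nlinarith
    have h9 : Real.log Lu ≤ r ^ θ * Real.log Lu := by nlinarith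
    rw [e1]
    linarith
  unfold Qk
  rw [← hLu, ← hLx, ← hθ, mul_div_assoc', div_le_div_iff₀ h3 h3', e2]
  calc Lu ^ θ * Real.log Lx ≤ Lu ^ θ * ((1 + 2 / c) * (r ^ θ * Real.log Lu)) :=
        mul_le_mul_of_nonneg_left h7 hLuθ.le
    _ = _ := by ring

/-- Abel summation -/
lemma abel (w b : ℕ → ℂ) (N : ℕ) : ∑ n ∈ Finset.Icc 1 N, w n * b n =
    w N * ∑ n ∈ Finset.Icc 1 N, b n -
      ∑ n ∈ Finset.Ico 1 N, (w (n + 1) - w n) * ∑ m ∈ Finset.Icc 1 n, b m := by
  induction N with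
  | zero => simp
  | succ N ih =>
    rw [Finset.sum_Icc_succ_top (by omega), Finset.sum_Icc_succ_top (by omega)]
    rcases Nat.eq_zero_or_pos N with rfl | hN
    · simp
    · rw [Finset.sum_Ico_succ_top (by omega), ih]
      ring

/-- general transfer -/
theorem gen {k : ℕ} (hk : 1 ≤ k) (b : ℕ → ℂ) (w : ℕ → ℝ) (φ ψ : ℝ → ℝ)
    (hφ : ∀ n : ℕ, 1 ≤ n → 1 ≤ φ n) (hψ : ∀ x : ℝ, 3 ≤ x → ψ ⌊x⌋₊ ≤ ψ x)
    (hψ0 : ∀ x : ℝ, 3 ≤ x → 0 ≤ ψ x)
    (hw : ∀ N : ℕ, 1 ≤ N → |w N| * φ N + ∑ n ∈ Finset.Ico 1 N, |w (n + 1) - w n| * φ n ≤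
      2 * ψ N)
    (hB : ∃ C : ℝ, ∀ x : ℝ, 3 ≤ x →
      ‖∑ n ∈ Finset.Icc 1 ⌊x⌋₊, b n‖ ≤ φ x * Real.exp (C * Qk k x)) :
    ∃ C : ℝ, ∀ x : ℝ, 3 ≤ x →
      ‖∑ n ∈ Finset.Icc 1 ⌊x⌋₊, ((w n : ℝ) : ℂ) * b n‖ ≤ ψ x * Real.exp (C * Qk k x) := by
  obtain ⟨C, hC⟩ := hB
  set q : ℝ := 1 + 2 / Real.log (Real.log 3) with hq
  have hq0 : 0 ≤ q := by have := ll3; positivity
  obtain ⟨D, hD⟩ : ∃ D : ℝ, D = ‖∑ n ∈ Finset.Icc 1 1, b n‖ + ‖∑ n ∈ Finset.Icc 1 2, b n‖ :=
    ⟨_, rfl⟩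
  have hD0 : 0 ≤ D := by rw [hD]; positivity
  refine ⟨|C| * q + 2 * Real.log (2 * (1 + D)), fun x hx => ?_⟩
  have hQ := half_le_Qk hk hx
  obtain ⟨N, hN⟩ : ∃ N : ℕ, N = ⌊x⌋₊ := ⟨_, rfl⟩
  have hN3 : 3 ≤ N := by
    rw [hN]; exact Nat.le_floor (by exact_mod_cast hx)
  have hNx : (N : ℝ) ≤ x := by rw [hN]; exact Nat.floor_le (by linarith)
  obtain ⟨E, hE⟩ : ∃ E : ℝ, E = (1 + D) * Real.exp (|C| * q * Qk k x) := ⟨_, rfl⟩
  have hexp1 : 1 ≤ Real.exp (|C| * q * Qk k x) := Real.one_le_exp (by positivity)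
  have hE0 : 0 ≤ E := by rw [hE]; positivity
  have hDE : D ≤ E := by
    rw [hE]
    nlinarith
  have hbd : ∀ n : ℕ, 1 ≤ n → n ≤ N → ‖∑ m ∈ Finset.Icc 1 n, b m‖ ≤ E * φ n := by
    intro n hn hnN
    have hφn := hφ n hn
    rcases Nat.lt_or_ge n 3 with h3 | h3
    · have h4 : ‖∑ m ∈ Finset.Icc 1 n, b m‖ ≤ D := by
        have : n = 1 ∨ n = 2 := by omega
        rcases this with rfl | rfl
        · rw [hD]; linarith [norm_nonneg (∑ n ∈ Finset.Icc 1 2, b n)]
        · rw [hD]; linarith [norm_nonneg (∑ n ∈ Finset.Icc 1 1, b n)]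
      nlinarith
    · have h3' : (3 : ℝ) ≤ n := by exact_mod_cast h3
      have h4 := hC n h3'
      rw [Nat.floor_natCast] at h4
      have h5 : C * Qk k n ≤ |C| * q * Qk k x := by
        have h6 := Qk_quasi hk h3' (le_trans (by exact_mod_cast hnN) hNx)
        have h7 := half_le_Qk hk h3'
        calc C * Qk k n ≤ |C| * Qk k n :=
              mul_le_mul_of_nonneg_right (le_abs_self C) (by linarith)
          _ ≤ |C| * (q * Qk k x) := mul_le_mul_of_nonneg_left h6 (abs_nonneg C)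
          _ = _ := by ring
      have h6 : Real.exp (C * Qk k n) ≤ E := by
        rw [hE]
        have := Real.exp_le_exp.2 h5
        nlinarith
      calc _ ≤ φ n * Real.exp (C * Qk k n) := h4
        _ ≤ φ n * E := mul_le_mul_of_nonneg_left h6 (by linarith)
        _ = _ := by ring
  have hmain : ‖∑ n ∈ Finset.Icc 1 N, ((w n : ℝ) : ℂ) * b n‖ ≤ E * (2 * ψ N) := by
    rw [abel]
    calc _ ≤ ‖((w N : ℝ) : ℂ) * ∑ n ∈ Finset.Icc 1 N, b n‖ +
          ‖∑ n ∈ Finset.Ico 1 N, (((w (n + 1) : ℝ) : ℂ) - ((w n : ℝ) : ℂ)) *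
            ∑ m ∈ Finset.Icc 1 n, b m‖ := norm_sub_le _ _
      _ ≤ |w N| * (E * φ N) + ∑ n ∈ Finset.Ico 1 N, |w (n + 1) - w n| * (E * φ n) := by
          apply add_le_add
          · rw [norm_mul, Complex.norm_real, Real.norm_eq_abs]
            exact mul_le_mul_of_nonneg_left (hbd N (by omega) le_rfl) (abs_nonneg _)
          · refine (norm_sum_le _ _).trans (Finset.sum_le_sum fun n hn => ?_)
            rw [Finset.mem_Ico] at hn
            rw [norm_mul, ← Complex.ofReal_sub, Complex.norm_real, Real.norm_eq_abs]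
            exact mul_le_mul_of_nonneg_left (hbd n hn.1 hn.2.le) (abs_nonneg _)
      _ = E * (|w N| * φ N + ∑ n ∈ Finset.Ico 1 N, |w (n + 1) - w n| * φ n) := by
          rw [mul_add, Finset.mul_sum]
          congr 1
          · ring
          · exact Finset.sum_congr rfl fun n _ => by ring
      _ ≤ E * (2 * ψ N) := mul_le_mul_of_nonneg_left (hw N (by omega)) hE0
  rw [← hN]
  refine hmain.trans ?_
  have h8 : ψ N ≤ ψ x := by rw [hN]; exact hψ x hx
  have h9 := hψ0 x hx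
  have h10 : 2 * (1 + D) ≤ Real.exp (2 * Real.log (2 * (1 + D)) * Qk k x) := by
    have h11 : 0 ≤ Real.log (2 * (1 + D)) := Real.log_nonneg (by linarith)
    calc 2 * (1 + D) = Real.exp (Real.log (2 * (1 + D))) := by
          rw [Real.exp_log (by positivity)]
      _ ≤ _ := Real.exp_le_exp.2 (by nlinarith)
  calc E * (2 * ψ N) ≤ E * (2 * ψ x) := by
        apply mul_le_mul_of_nonneg_left _ hE0
        linarith
    _ = ψ x * (2 * (1 + D) * Real.exp (|C| * q * Qk k x)) := by rw [hE]; ring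
    _ ≤ ψ x * (Real.exp (2 * Real.log (2 * (1 + D)) * Qk k x) *
          Real.exp (|C| * q * Qk k x)) := by
        apply mul_le_mul_of_nonneg_left _ h9
        exact mul_le_mul_of_nonneg_right h10 (Real.exp_pos _).le
    _ = _ := by
        rw [← Real.exp_add]
        congr 2
        ring

/-- **PS.** -/
theorem ps (k : ℕ) (hk : 1 ≤ k) (b : ℕ → ℂ) :
    (∃ C : ℝ, ∀ x : ℝ, 3 ≤ x →
      ‖∑ n ∈ Finset.Icc 1 ⌊x⌋₊, b n‖ ≤ Real.sqrt x * Real.exp (C * Qk k x)) ↔
    (∃ C : ℝ, ∀ x : ℝ, 3 ≤ x →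
      ‖∑ n ∈ Finset.Icc 1 ⌊x⌋₊, ((Real.sqrt n : ℝ) : ℂ) * b n‖ ≤ x * Real.exp (C * Qk k x)) := by
  constructor
  · intro h
    refine gen hk b (fun n => Real.sqrt n) Real.sqrt (fun x => x) ?_ ?_ ?_ ?_ h
    · intro n hn
      rw [Real.one_le_sqrt]
      exact_mod_cast hn
    · intro x hx
      exact Nat.floor_le (by linarith)
    · intro x hx
      linarith
    · intro N hN
      have h1 : |Real.sqrt N| * Real.sqrt N = N := by
        rw [abs_of_nonneg (Real.sqrt_nonneg _), Real.mul_self_sqrt (by positivity)]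
      have h2 : ∑ n ∈ Finset.Ico 1 N, |Real.sqrt ((n + 1 : ℕ) : ℝ) - Real.sqrt n| * Real.sqrt n ≤
          ∑ n ∈ Finset.Ico 1 N, (1 : ℝ) := by
        apply Finset.sum_le_sum
        intro n _
        have h3 : Real.sqrt n ≤ Real.sqrt ((n + 1 : ℕ) : ℝ) :=
          Real.sqrt_le_sqrt (by push_cast; linarith)
        have h4 : Real.sqrt n * Real.sqrt n = n := Real.mul_self_sqrt (by positivity)
        have h5 : Real.sqrt ((n + 1 : ℕ) : ℝ) * Real.sqrt ((n + 1 : ℕ) : ℝ) = n + 1 := by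
          rw [Real.mul_self_sqrt (by positivity)]; push_cast; ring
        rw [abs_of_nonneg (by linarith)]
        nlinarith [Real.sqrt_nonneg (n : ℝ), Real.sqrt_nonneg ((n + 1 : ℕ) : ℝ)]
      have h3 : ∑ n ∈ Finset.Ico 1 N, (1 : ℝ) ≤ N := by
        rw [Finset.sum_const, Nat.card_Ico, nsmul_eq_mul, mul_one]
        have : (N - 1 : ℕ) ≤ N := Nat.sub_le _ _
        exact_mod_cast this
      rw [h1]
      linarith
  · intro h
    have key := gen hk (fun n => ((Real.sqrt n : ℝ) : ℂ) * b n) (fun n => 1 / Real.sqrt n)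
      (fun x => x) Real.sqrt ?_ ?_ ?_ ?_ h
    · obtain ⟨C, hC⟩ := key
      refine ⟨C, fun x hx => ?_⟩
      have h1 := hC x hx
      have h2 : ∑ n ∈ Finset.Icc 1 ⌊x⌋₊, (((1 / Real.sqrt n : ℝ)) : ℂ) *
          (((Real.sqrt n : ℝ) : ℂ) * b n) = ∑ n ∈ Finset.Icc 1 ⌊x⌋₊, b n := by
        refine Finset.sum_congr rfl fun n hn => ?_
        rw [Finset.mem_Icc] at hn
        have h3 : Real.sqrt n ≠ 0 := by
          rw [Real.sqrt_ne_zero (by positivity)]
          have : 0 < n := hn.1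
          positivity
        rw [← mul_assoc, ← Complex.ofReal_mul, one_div, inv_mul_cancel₀ h3]
        simp
      rwa [h2] at h1
    · intro n hn
      exact_mod_cast hn
    · intro x hx
      exact Real.sqrt_le_sqrt (Nat.floor_le (by linarith))
    · intro x hx
      exact Real.sqrt_nonneg _
    · intro N hN
      have hpos : ∀ n : ℕ, 1 ≤ n → 0 < Real.sqrt n := fun n hn => Real.sqrt_pos.2 (by exact_mod_cast hn)
      have h1 : |1 / Real.sqrt N| * (N : ℝ) = Real.sqrt N := by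
        have h0 := hpos N hN
        rw [abs_of_nonneg (by positivity)]
        have h4 : Real.sqrt N * Real.sqrt N = N := Real.mul_self_sqrt (by positivity)
        field_simp
        nlinarith
      have h2 : ∑ n ∈ Finset.Ico 1 N, |1 / Real.sqrt ((n + 1 : ℕ) : ℝ) - 1 / Real.sqrt n| * (n : ℝ) ≤
          ∑ n ∈ Finset.Ico 1 N, (Real.sqrt ((n + 1 : ℕ) : ℝ) - Real.sqrt (n : ℝ)) := by
        apply Finset.sum_le_sum
        intro n hn
        rw [Finset.mem_Ico] at hn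
        have p1 := hpos n hn.1
        have p2 := hpos (n + 1) (by omega)
        have h3 : Real.sqrt n ≤ Real.sqrt ((n + 1 : ℕ) : ℝ) :=
          Real.sqrt_le_sqrt (by push_cast; linarith)
        have h4 : Real.sqrt n * Real.sqrt n = n := Real.mul_self_sqrt (by positivity)
        have h6 : 1 / Real.sqrt ((n + 1 : ℕ) : ℝ) ≤ 1 / Real.sqrt n :=
          one_div_le_one_div_of_le p1 h3
        rw [abs_of_nonpos (by linarith)]
        have h7 : -(1 / Real.sqrt ((n + 1 : ℕ) : ℝ) - 1 / Real.sqrt n) * (n : ℝ) =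
            (Real.sqrt ((n + 1 : ℕ) : ℝ) - Real.sqrt n) *
              (Real.sqrt n / Real.sqrt ((n + 1 : ℕ) : ℝ)) := by
          calc -(1 / Real.sqrt ((n + 1 : ℕ) : ℝ) - 1 / Real.sqrt n) * (n : ℝ) =
                -(1 / Real.sqrt ((n + 1 : ℕ) : ℝ) - 1 / Real.sqrt n) *
                  (Real.sqrt n * Real.sqrt n) := by rw [h4]
            _ = _ := by
              generalize Real.sqrt ((n + 1 : ℕ) : ℝ) = B at *
              generalize Real.sqrt (n : ℝ) = A at *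
              field_simp
              ring
        rw [h7]
        have h8 : Real.sqrt n / Real.sqrt ((n + 1 : ℕ) : ℝ) ≤ 1 := by
          rw [div_le_one p2]; exact h3
        have h9 : 0 ≤ Real.sqrt ((n + 1 : ℕ) : ℝ) - Real.sqrt n := by linarith
        nlinarith
      have h3 : ∑ n ∈ Finset.Ico 1 N, (Real.sqrt ((n + 1 : ℕ) : ℝ) - Real.sqrt (n : ℝ)) ≤
          Real.sqrt N := by
        rw [Finset.sum_Ico_sub (fun n : ℕ => Real.sqrt (n : ℝ)) hN]
        have := Real.sqrt_nonneg ((1 : ℕ) : ℝ)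
        linarith
      rw [h1]
      linarith

end Pool.Agent.N776.GXPS
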