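import Pool.Agent.N212.KS.Stm

set_option autoImplicit false

/-! Project KS, leaf LIM. -/

namespace Pool.Agent.N776.KS

open Filter Topology

theorem t_LIM : Pool.Agent.N212.KS.S_LIM := by
  intro u M c C hM hc h
  have hC : 0 < C := by
    have h0 := h 0
    simp only [pow_zero, mul_one] at h0
    linarith [h0.1, h0.2]
  have hroot : ∀ a : ℝ, 0 < a → Tendsto (fun n : ℕ => a ^ ((1 : ℝ) / n) * M) atTop (𝓝 M) := by
    intro a ha
    have h1 : Tendsto (fun n : ℕ => a ^ ((1 : ℝ) / n)) atTop (𝓝 (a ^ (0 : ℝ))) :=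
      (Real.continuousAt_const_rpow ha.ne').tendsto.comp tendsto_one_div_atTop_nhds_zero_nat
    rw [Real.rpow_zero] at h1
    have h2 := h1.mul_const M
    rwa [one_mul] at h2
  have key : ∀ a : ℝ, 0 < a → ∀ n : ℕ, 1 ≤ n → (a * M ^ n) ^ ((1 : ℝ) / n) = a ^ ((1 : ℝ) / n) * M := by
    intro a ha n hn
    rw [Real.mul_rpow ha.le (by positivity), one_div, Real.pow_rpow_inv_natCast hM.le (by omega)]
  refine tendsto_of_tendsto_of_tendsto_of_le_of_le' (hroot c hc) (hroot C hC) ?_ ?_
  · filter_upwards [eventually_ge_atTop 1] with n hn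
    rw [← key c hc n hn]
    exact Real.rpow_le_rpow (by positivity) (h n).1 (by positivity)
  · filter_upwards [eventually_ge_atTop 1] with n hn
    rw [← key C hC n hn]
    exact Real.rpow_le_rpow (le_trans (by positivity) (h n).1) (h n).2 (by positivity)

end Pool.Agent.N776.KS
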