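import Pool.Agent.N906.RS.Stm

/-!
# RS/UP: the upper bound (written by helper776)
-/

set_option autoImplicit false
set_option linter.unusedSectionVars false

namespace Pool.Agent.N776.RS

open NumberField IsDedekindDomain Finset Filter Topology Pool.Agent.H691R3 Pool.Agent.W223.AK
open Pool.Agent.N906.RS

variable {K : Type} [Field K] [NumberField K]

/-! ### the three forms at one place -/

theorem av_cmp (v : Pl K) (x : K) {a b c : Fin 3} (hab : a ≠ b) (hbc : b ≠ c) (hac : a ≠ c) :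
    av v (L a x) ≤ av v (L b x) + av v (L c x) := by
  have h3 := L_rel x hab hbc hac
  have h4 : L a x = -(sgn K a * sgn K b) * L b x + -(sgn K a * sgn K c) * L c x := by
    have h5 := sgn_sq (K := K) a
    linear_combination (sgn K a) * h3 - L a x * h5
  rw [h4]
  refine ((av v).add_le _ _).trans (le_of_eq ?_)
  rw [map_mul, map_mul, map_neg_eq_map, map_neg_eq_map, map_mul, map_mul, abv_sgn, abv_sgn,
    abv_sgn]
  ring

theorem small2 (v : Pl K) (x : K) {a b : Fin 3} (hab : a ≠ b)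
    (ha : av v (L a x) < max (av v x) 1 / 4) (hb : av v (L b x) < max (av v x) 1 / 4) :
    False := by
  have hex : ∀ a b : Fin 3, ∃ c : Fin 3, c ≠ a ∧ c ≠ b := by decide
  have huni : ∀ a b c l : Fin 3, a ≠ b → c ≠ a → c ≠ b → l ≠ a → l ≠ b → l = c := by decide
  obtain ⟨c, hca, hcb⟩ := hex a b
  have h1 := av_cmp v x hca hab hcb
  have hm := mx_pos v x
  have hall : ∀ l : Fin 3, av v (L l x) < max (av v x) 1 := by
    intro l
    by_cases h : l = a
    · rw [h]; linarith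
    · by_cases h' : l = b
      · rw [h']; linarith
      · rw [huni a b c l hab hca hcb h h']; linarith
  rcases max_choice (av v x) 1 with h | h
  · have h2 := hall 0
    rw [L_zero, h] at h2
    exact lt_irrefl _ h2
  · have h2 := hall 1
    rw [L_one, map_one, h] at h2
    exact lt_irrefl _ h2

theorem lm_le_of {x : K} (hx : Pt x) (v : Pl K) {a b : Fin 3} (hab : a ≠ b)
    (h : lm v a x ≤ lm v b x) : lm v a x ≤ mt v * Real.log 4 := by
  by_contra hc
  push Not at hc
  have key : ∀ l : Fin 3, mt v * Real.log 4 < lm v l x → av v (L l x) < max (av v x) 1 / 4 := by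
    intro l hl
    unfold lm at hl
    have h2 : Real.log 4 < Real.log (max (av v x) 1 / av v (L l x)) :=
      lt_of_mul_lt_mul_left hl (mt_pos v).le
    have hp := (av v).pos (L_ne hx l)
    have hm := mx_pos v x
    have h3 := (Real.log_lt_log_iff (by norm_num) (div_pos hm hp)).mp h2
    rw [lt_div_iff₀ hp] at h3
    linarith
  exact small2 v x hab (key a hc) (key b (hc.trans_le h))

theorem sum_lm3 {x : K} (hx : Pt x) (v : Pl K) {t : Fin 3} (ht : ∀ l, lm v l x ≤ lm v t x) :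
    ∑ l : Fin 3, lm v l x ≤ lm v t x + 6 ∧ lm v t x - 6 ≤ ∑ l : Fin 3, lm v l x := by
  have hl2 := Real.log_two_lt_d9
  have h4 : Real.log 4 = 2 * Real.log 2 := by
    rw [show (4 : ℝ) = 2 ^ 2 by norm_num, Real.log_pow]; norm_num
  have hmt := mt_le_two v
  have hmt0 := mt_pos v
  have hl0 : 0 < Real.log 2 := Real.log_pos (by norm_num)
  have hu : ∀ l, l ≠ t → lm v l x ≤ 3 := by
    intro l hl
    have := lm_le_of hx v hl (ht l)
    rw [h4] at this
    nlinarith
  have hd : ∀ l, -3 ≤ lm v l x := fun l => by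
    have := lm_ge hx v l
    nlinarith
  have h0 := hd 0
  have h1 := hd 1
  have h2 := hd 2
  rw [Fin.sum_univ_three]
  have hcases : ∀ t : Fin 3, t = 0 ∨ t = 1 ∨ t = 2 := by decide
  rcases hcases t with rfl | rfl | rfl
  · have := hu 1 (by decide)
    have := hu 2 (by decide)
    constructor <;> linarith
  · have := hu 0 (by decide)
    have := hu 2 (by decide)
    constructor <;> linarith
  · have := hu 0 (by decide)
    have := hu 1 (by decide)
    constructor <;> linarith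

/-- the sizes of the three ideals of a point -/
theorem tl_bounds {x : K} {P : Fin 3 → Idl K} {τ : InfinitePlace K → Fin 3} (hx : Pt x)
    (hP : IsP ∅ x P) (hτ : ∀ w l, lm (Sum.inl w) l x ≤ lm (Sum.inl w) (τ w) x) :
    3 * ht x - ∑ w : InfinitePlace K, lm (Sum.inl w) (τ w) x -
        6 * (Fintype.card (InfinitePlace K) : ℝ) ≤ tl P ∧
      tl P ≤ 3 * ht x - ∑ w : InfinitePlace K, lm (Sum.inl w) (τ w) x +
        6 * (Fintype.card (InfinitePlace K) : ℝ) := by
  have h1 : tl P = 3 * ht x - ∑ w : InfinitePlace K, ∑ l : Fin 3, lm (Sum.inl w) l x := by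
    unfold tl
    have h2 : ∀ l : Fin 3, len (P l) = ht x - ∑ w : InfinitePlace K, lm (Sum.inl w) l x := by
      intro l
      have h3 := sum_lm hx hP l
      rw [sum_Spl, Finset.sum_empty, add_zero] at h3
      linarith
    rw [Finset.sum_congr rfl fun l _ => h2 l, Finset.sum_sub_distrib, Finset.sum_comm]
    simp
  have hcard : (Fintype.card (InfinitePlace K) : ℝ) * 6 = ∑ _w : InfinitePlace K, (6 : ℝ) := by
    rw [Finset.sum_const, nsmul_eq_mul, Finset.card_univ]
  have h3 : ∑ w : InfinitePlace K, ∑ l : Fin 3, lm (Sum.inl w) l x ≤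
      ∑ w : InfinitePlace K, (lm (Sum.inl w) (τ w) x + 6) :=
    Finset.sum_le_sum fun w _ => (sum_lm3 hx (Sum.inl w) (hτ w)).1
  have h4 : ∑ w : InfinitePlace K, (lm (Sum.inl w) (τ w) x - 6) ≤
      ∑ w : InfinitePlace K, ∑ l : Fin 3, lm (Sum.inl w) l x :=
    Finset.sum_le_sum fun w _ => (sum_lm3 hx (Sum.inl w) (hτ w)).2
  rw [Finset.sum_add_distrib, ← hcard] at h3
  rw [Finset.sum_sub_distrib, ← hcard] at h4
  constructor <;> linarith

/-! ### ideals -/

/-- lower all exponents by one -/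
noncomputable def shr (a : Idl K) : Idl K := a.mapRange (fun n => n - 1) rfl

/-- raise the positive exponents by one -/
noncomputable def upp (a : Idl K) : Idl K := a.mapRange (fun n => if n = 0 then 0 else n + 1) rfl

theorem shr_apply (a : Idl K) (v : Pr K) : shr a v = a v - 1 := rfl

theorem upp_apply (a : Idl K) (v : Pr K) : upp a v = if a v = 0 then 0 else a v + 1 := rfl

theorem len_shr (a : Idl K) : len a = len (shr a) + rl a := by
  rw [len_eq_sum (a := shr a) (s := a.support) Finsupp.support_mapRange]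
  unfold len rl
  rw [← Finset.sum_add_distrib]
  refine Finset.sum_congr rfl fun v hv => ?_
  have h1 : 1 ≤ a v := Nat.one_le_iff_ne_zero.mpr (Finsupp.mem_support_iff.mp hv)
  rw [shr_apply, Nat.cast_sub h1]
  push_cast
  ring

theorem len_up (a : Idl K) : len (upp a) = len a + rl a := by
  rw [len_eq_sum (a := upp a) (s := a.support) Finsupp.support_mapRange]
  unfold len rl
  rw [← Finset.sum_add_distrib]
  refine Finset.sum_congr rfl fun v hv => ?_
  have h1 : a v ≠ 0 := Finsupp.mem_support_iff.mp hv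
  rw [upp_apply, if_neg h1]
  push_cast
  ring

theorem up_shr_le (a : Idl K) : upp (shr a) ≤ a := by
  intro v
  rw [upp_apply, shr_apply]
  split_ifs with h
  · exact Nat.zero_le _
  · omega

theorem cop_shr {a b : Idl K} (h : Cop a b) : Cop (shr a) (shr b) := by
  intro v
  rw [shr_apply, shr_apply]
  rcases h v with h | h
  · left; omega
  · right; omega

theorem tl_shr (P : Fin 3 → Idl K) : tl P = tl (fun l => shr (P l)) + tr P := by
  unfold tl tr
  rw [← Finset.sum_add_distrib]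
  exact Finset.sum_congr rfl fun l _ => len_shr (P l)

theorem tl_up (E : Fin 3 → Idl K) : tl (fun l => upp (E l)) = tl E + tr E := by
  unfold tl tr
  rw [← Finset.sum_add_distrib]
  exact Finset.sum_congr rfl fun l _ => len_up (E l)

theorem tr_le_tl (E : Fin 3 → Idl K) : tr E ≤ tl E :=
  Finset.sum_le_sum fun l _ => rl_le_len (E l)

theorem tl_nonneg (E : Fin 3 → Idl K) : 0 ≤ tl E := Finset.sum_nonneg fun l _ => len_nonneg (E l)

theorem tr_nonneg (E : Fin 3 → Idl K) : 0 ≤ tr E := Finset.sum_nonneg fun l _ => rl_nonneg (E l)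

/-! ### points of height about `m` -/

/-- the cell bound -/
def CellB (K : Type) [Field K] [NumberField K] (C : ℝ) : Prop :=
  ∀ (X : ℝ) (D : Fin 3 → Idl K) (τ : InfinitePlace K → Fin 3)
    (s : InfinitePlace K → ℝ) (F : Finset K), 0 ≤ X → (∀ w, 0 ≤ s w) →
    (∀ x ∈ F, Pt x ∧ ht x ≤ X ∧ (∀ w, s w ≤ lm (Sum.inl w) (τ w) x) ∧
      ∃ P : Fin 3 → Idl K, IsP ∅ x P ∧ ∀ l, D l ≤ P l) →
    (F.card : ℝ) ≤ C * (Real.exp (2 * X - tl D - ∑ w, s w) + 1)

theorem cellm {C : ℝ} (hC : 0 < C) (hcell : CellB K C)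
    {κ δ C₀ u G : ℝ} (hκ : 0 < κ) (hκ1 : κ ≤ 1) (hδ : κ + δ ≤ 1) (hC₀ : 0 ≤ C₀)
    (hu : 0 < u) (hu1 : u ≤ 1)
    (hG : ∀ F : Finset (Fin 3 → Idl K), (∀ E ∈ F, PC E) →
      ∑ E ∈ F, Real.exp (-(u * tl E) - tr E) ≤ G)
    {r : ℕ} (hr : r = Fintype.card (InfinitePlace K)) (m : ℕ) (F : Finset K)
    (hF : ∀ x ∈ F, Pt x ∧ (m : ℝ) - 1 ≤ ht x ∧ ht x ≤ m ∧ ∃ P : Fin 3 → Idl K, IsP ∅ x P ∧
      tr P ≤ (3 - κ) * ht x + C₀ ∧ (3 - κ - δ) * ht x ≤ tr P) :
    (F.card : ℝ) ≤ ((3 : ℝ) ^ r * ((m : ℝ) + 6 * r + 1) ^ r) *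
      (C * (1 + Real.exp (12 * r)) * Real.exp (1 + C₀ + 7 * r) *
        Real.exp ((2 - κ) * m + u * κ * m) * G) := by
  classical
  have hG0 : 0 ≤ G := by simpa using hG ∅ (by simp)
  -- choices
  have hP' : ∀ x : K, ∃ P : Fin 3 → Idl K, x ∈ F → IsP ∅ x P ∧
      tr P ≤ (3 - κ) * ht x + C₀ ∧ (3 - κ - δ) * ht x ≤ tr P := by
    intro x
    by_cases hx : x ∈ F
    · obtain ⟨P, hP⟩ := (hF x hx).2.2.2
      exact ⟨P, fun _ => hP⟩
    · exact ⟨0, fun h => absurd h hx⟩
  choose P hP using hP'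
  have hτ' : ∀ (x : K) (w : InfinitePlace K), ∃ t : Fin 3, ∀ l,
      lm (Sum.inl w : Pl K) l x ≤ lm (Sum.inl w) t x := by
    intro x w
    obtain ⟨t, -, ht⟩ := Finset.exists_max_image (univ : Finset (Fin 3))
      (fun l => lm (Sum.inl w : Pl K) l x) ⟨0, mem_univ _⟩
    exact ⟨t, fun l => ht l (mem_univ l)⟩
  choose τ hτ using hτ'
  obtain ⟨k, hk⟩ : ∃ k : K → InfinitePlace K → ℕ,
      k = fun x w => ⌊lm (Sum.inl w : Pl K) (τ x w) x⌋₊ := ⟨_, rfl⟩
  obtain ⟨Ef, hEf⟩ : ∃ Ef : K → Fin 3 → Idl K, Ef = fun x l => shr (P x l) := ⟨_, rfl⟩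
  have hlm0 : ∀ x ∈ F, ∀ w, 0 ≤ lm (Sum.inl w : Pl K) (τ x w) x := by
    intro x _ w
    refine le_trans ?_ (hτ x w 1)
    unfold lm
    rw [L_one, map_one, div_one]
    exact mul_nonneg (mt_pos _).le (Real.log_nonneg (le_max_right _ _))
  have hkl : ∀ x ∈ F, ∀ w, (k x w : ℝ) ≤ lm (Sum.inl w : Pl K) (τ x w) x := by
    intro x hx w
    rw [hk]
    exact Nat.floor_le (hlm0 x hx w)
  have hku : ∀ x w, lm (Sum.inl w : Pl K) (τ x w) x ≤ (k x w : ℝ) + 1 := by
    intro x w
    rw [hk]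
    exact (Nat.lt_floor_add_one _).le
  have hr0 : (0 : ℝ) ≤ r := Nat.cast_nonneg _
  have hrc : ((Fintype.card (InfinitePlace K) : ℕ) : ℝ) = r := by rw [hr]
  -- the main inequalities
  have hmain : ∀ x ∈ F, κ * m - (1 + C₀ + 7 * r) ≤ tl (Ef x) + ∑ w, (k x w : ℝ) ∧
      tl (Ef x) + ∑ w, (k x w : ℝ) ≤ m + 6 * r := by
    intro x hx
    obtain ⟨hpt, hm1, hm2, -⟩ := hF x hx
    obtain ⟨hI, hR1, hR2⟩ := hP x hx
    obtain ⟨b1, b2⟩ := tl_bounds hpt hI (hτ x)
    rw [hrc] at b1 b2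
    have e1 : tl (P x) = tl (Ef x) + tr (P x) := by rw [hEf]; exact tl_shr (P x)
    have s1 : ∑ w, (k x w : ℝ) ≤ ∑ w : InfinitePlace K, lm (Sum.inl w : Pl K) (τ x w) x :=
      Finset.sum_le_sum fun w _ => hkl x hx w
    have s2 : ∑ w : InfinitePlace K, lm (Sum.inl w : Pl K) (τ x w) x ≤
        ∑ w, (k x w : ℝ) + r := by
      have : ∑ w : InfinitePlace K, lm (Sum.inl w : Pl K) (τ x w) x ≤
          ∑ w : InfinitePlace K, ((k x w : ℝ) + 1) := Finset.sum_le_sum fun w _ => hku x w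
      rw [Finset.sum_add_distrib] at this
      have e2 : ∑ _w : InfinitePlace K, (1 : ℝ) = r := by
        rw [Finset.sum_const, nsmul_eq_mul, mul_one, Finset.card_univ, hrc]
      rwa [e2] at this
    have hh := ht_nonneg x
    constructor
    · have hκ2 : κ * (m - 1) ≤ κ * ht x := mul_le_mul_of_nonneg_left hm1 hκ.le
      nlinarith
    · have : (κ + δ) * ht x ≤ 1 * ht x := mul_le_mul_of_nonneg_right hδ hh
      nlinarith
  -- the codes
  set T : Finset ((InfinitePlace K → Fin 3) × (InfinitePlace K → ℕ)) :=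
    (univ : Finset (InfinitePlace K → Fin 3)) ×ˢ
      Fintype.piFinset (fun _ : InfinitePlace K => range (m + 6 * r + 1)) with hT
  have hTcard : (T.card : ℝ) = (3 : ℝ) ^ r * ((m : ℝ) + 6 * r + 1) ^ r := by
    rw [hT, card_product, card_univ, Fintype.card_piFinset, Fintype.card_fun, Fintype.card_fin,
      Finset.prod_const, card_univ, card_range, ← hr]
    push_cast
    ring
  have hmaps : ∀ x ∈ F, (τ x, k x) ∈ T := by
    intro x hx
    rw [hT, mem_product]
    refine ⟨mem_univ _, ?_⟩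
    rw [Fintype.mem_piFinset]
    intro w
    rw [mem_range]
    have h1 := (hmain x hx).2
    have h2 := tl_nonneg (Ef x)
    have h3 : (k x w : ℝ) ≤ ∑ w, (k x w : ℝ) :=
      Finset.single_le_sum (f := fun w => (k x w : ℝ)) (fun w _ => Nat.cast_nonneg _) (mem_univ w)
    have h4 : (k x w : ℝ) ≤ ((m + 6 * r : ℕ) : ℝ) := by push_cast; linarith
    have h5 : k x w ≤ m + 6 * r := by exact_mod_cast h4
    simp only
    omega
  obtain ⟨B, hB⟩ : ∃ B : ℝ, B = C * (1 + Real.exp (12 * r)) * Real.exp (1 + C₀ + 7 * r) *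
        Real.exp ((2 - κ) * m + u * κ * m) * G := ⟨_, rfl⟩
  rw [← hB]
  have hfib : ∀ b ∈ T, ((#{x ∈ F | (τ x, k x) = b} : ℕ) : ℝ) ≤ B := by
    rintro ⟨t, j⟩ -
    set F' : Finset K := {x ∈ F | (τ x, k x) = (t, j)} with hF'
    have hmem : ∀ x ∈ F', x ∈ F ∧ τ x = t ∧ k x = j := by
      intro x hx
      rw [hF', mem_filter, Prod.mk.injEq] at hx
      exact ⟨hx.1, hx.2.1, hx.2.2⟩
    rw [card_eq_sum_card_image Ef F']
    push_cast
    have hPC : ∀ E ∈ F'.image Ef, PC E := by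
      intro E hE
      obtain ⟨x, hx, rfl⟩ := mem_image.1 hE
      obtain ⟨hxF, -, -⟩ := hmem x hx
      intro l l' hl
      rw [hEf]
      exact cop_shr ((hP x hxF).1.cop hl)
    have hterm : ∀ E ∈ F'.image Ef, ((#{x ∈ F' | Ef x = E} : ℕ) : ℝ) ≤
        C * (1 + Real.exp (12 * r)) * Real.exp (1 + C₀ + 7 * r) *
        Real.exp ((2 - κ) * m + u * κ * m) * Real.exp (-(u * tl E) - tr E) := by
      intro E hE
      obtain ⟨x₀, hx₀, hE₀⟩ := mem_image.1 hE
      obtain ⟨hx₀F, hx₀t, hx₀j⟩ := hmem x₀ hx₀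
      obtain ⟨g1, g2⟩ := hmain x₀ hx₀F
      rw [hE₀, hx₀j] at g1 g2
      have hc := hcell m (fun l => upp (E l)) t (fun w => (j w : ℝ)) {x ∈ F' | Ef x = E}
        (Nat.cast_nonneg _) (fun w => Nat.cast_nonneg _) (by
          intro x hx
          rw [mem_filter] at hx
          obtain ⟨hxF, hxt, hxj⟩ := hmem x hx.1
          refine ⟨(hF x hxF).1, (hF x hxF).2.2.1, fun w => ?_, P x, (hP x hxF).1, fun l => ?_⟩
          · rw [← hxt, ← hxj]
            exact hkl x hxF w
          · rw [← hx.2, hEf]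
            exact up_shr_le _)
      refine hc.trans ?_
      have hup : tl (fun l => upp (E l)) = tl E + tr E := tl_up E
      rw [hup]
      have ht1 := tr_le_tl E
      have ht2 := tl_nonneg E
      have ht3 := tr_nonneg E
      obtain ⟨σ, hσ⟩ : ∃ σ : ℝ, σ = ∑ w, (j w : ℝ) := ⟨_, rfl⟩
      have hσ0 : 0 ≤ σ := by rw [hσ]; exact Finset.sum_nonneg fun w _ => Nat.cast_nonneg _
      rw [← hσ] at g1 g2 ⊢
      have q1 : (1 : ℝ) ≤ Real.exp (12 * r) * Real.exp (2 * m - (tl E + tr E) - σ) := by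
        rw [← Real.exp_add]
        apply Real.one_le_exp
        linarith
      have q2 : Real.exp (2 * m - (tl E + tr E) - σ) ≤
          Real.exp (1 + C₀ + 7 * r) * Real.exp ((2 - κ) * m + u * κ * m) *
            Real.exp (-(u * tl E) - tr E) := by
        rw [← Real.exp_add, ← Real.exp_add]
        apply Real.exp_le_exp.2
        have q3 : (1 - u) * (κ * m - (1 + C₀ + 7 * r)) ≤ (1 - u) * (tl E + σ) :=
          mul_le_mul_of_nonneg_left g1 (by linarith)
        have q4 : 0 ≤ u * (1 + C₀ + 7 * r) := by positivity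
        have q5 : 0 ≤ u * σ := by positivity
        nlinarith
      calc C * (Real.exp (2 * m - (tl E + tr E) - σ) + 1)
          ≤ C * ((1 + Real.exp (12 * r)) * Real.exp (2 * m - (tl E + tr E) - σ)) := by
            apply mul_le_mul_of_nonneg_left _ hC.le
            linarith
        _ ≤ C * ((1 + Real.exp (12 * r)) * (Real.exp (1 + C₀ + 7 * r) *
              Real.exp ((2 - κ) * m + u * κ * m) * Real.exp (-(u * tl E) - tr E))) := by
            apply mul_le_mul_of_nonneg_left _ hC.le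
            exact mul_le_mul_of_nonneg_left q2 (by positivity)
        _ = _ := by ring
    refine (Finset.sum_le_sum hterm).trans ?_
    rw [← Finset.mul_sum, hB]
    exact mul_le_mul_of_nonneg_left (hG _ hPC) (by positivity)
  rw [card_eq_sum_card_fiberwise (f := fun x => (τ x, k x)) (t := T) hmaps]
  push_cast
  refine (Finset.sum_le_sum hfib).trans ?_
  rw [Finset.sum_const, nsmul_eq_mul, hTcard]

/-! ### asymptotics -/

/-- the choice of `u` -/
theorem num {κ ε u₀ : ℝ} (hκ : 0 < κ) (hε : 0 < ε) (hu₀ : 0 < u₀) :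
    ∃ m₀ : ℕ, 3 ≤ m₀ ∧ ∀ m : ℕ, m₀ ≤ m → ∃ u : ℝ, 0 < u ∧ u < u₀ ∧ u ≤ 1 ∧
      u * κ * m + (1 + ε) * (3 * 1) / (u * Real.log (1 / u)) ≤
        (1 + ε / 2) * √(24 * κ * m / Real.log m) := by
  have e1 : ∀ᶠ x : ℝ in atTop, 6 / κ ≤ Real.log x := Real.tendsto_log_atTop.eventually_ge_atTop _
  have e2 : ∀ᶠ x : ℝ in atTop, 6 / (κ * u₀ ^ 2) + 6 / κ + 3 < x := eventually_gt_atTop _
  have e3 : ∀ᶠ x : ℝ in atTop, 1 ≤ Real.log x := Real.tendsto_log_atTop.eventually_ge_atTop _
  obtain ⟨m₀, hm₀⟩ := eventually_atTop.1 ((e1.and (e2.and e3)).filter_mono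
    (tendsto_natCast_atTop_atTop (R := ℝ)) |> fun h => h)
  refine ⟨max m₀ 3, le_max_right _ _, fun m hm => ?_⟩
  obtain ⟨h1, h2, h3⟩ := hm₀ m ((le_max_left _ _).trans hm)
  obtain ⟨x, hx⟩ : ∃ x : ℝ, x = m := ⟨_, rfl⟩
  simp only [← hx] at h1 h2 h3 ⊢
  have hp1 : 0 < 6 / (κ * u₀ ^ 2) := by positivity
  have hp2 : 0 < 6 / κ := by positivity
  have hx0 : 0 < x := by linarith
  obtain ⟨l, hl⟩ : ∃ l : ℝ, l = Real.log x := ⟨_, rfl⟩
  rw [← hl] at h1 h3 ⊢
  have hl0 : 0 < l := by linarith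
  have hκl : 6 ≤ κ * l := by
    rw [div_le_iff₀ hκ] at h1; linarith
  have hD : 0 < κ * x * l := by positivity
  obtain ⟨u, hu⟩ : ∃ u : ℝ, u = √(6 / (κ * x * l)) := ⟨_, rfl⟩
  have hu0 : 0 < u := by rw [hu]; exact Real.sqrt_pos.2 (by positivity)
  have hu2 : u ^ 2 = 6 / (κ * x * l) := by rw [hu]; exact Real.sq_sqrt (by positivity)
  have hu2' : u ^ 2 * (κ * x * l) = 6 := by rw [hu2]; field_simp
  refine ⟨u, hu0, ?_, ?_, ?_⟩
  · -- `u < u₀`
    rw [hu, Real.sqrt_lt' hu₀, div_lt_iff₀ hD]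
    have h4 : 6 / (κ * u₀ ^ 2) < x := by linarith
    rw [div_lt_iff₀ (by positivity)] at h4
    have h5 : x * (κ * u₀ ^ 2) * 1 ≤ x * (κ * u₀ ^ 2) * l :=
      mul_le_mul_of_nonneg_left h3 (by positivity)
    nlinarith
  · rw [hu]
    apply Real.sqrt_le_one.2
    rw [div_le_one hD]
    have h4 : 6 / κ < x := by linarith
    rw [div_lt_iff₀ hκ] at h4
    have h5 : x * κ * 1 ≤ x * κ * l := mul_le_mul_of_nonneg_left h3 (by positivity)
    nlinarith
  · obtain ⟨a, ha⟩ : ∃ a : ℝ, a = u * κ * x := ⟨_, rfl⟩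
    have ha0 : 0 < a := by rw [ha]; positivity
    have hS : √(24 * κ * x / l) = 2 * a := by
      rw [show 24 * κ * x / l = (2 * a) ^ 2 by
        rw [ha, mul_pow, mul_pow, mul_pow, hu2]; field_simp; ring]
      exact Real.sqrt_sq (by positivity)
    have hlog : l / 2 ≤ Real.log (1 / u) := by
      have h6 : x ≤ (1 / u) ^ 2 := by
        rw [div_pow, one_pow, le_div_iff₀ (by positivity), hu2, mul_div_assoc', div_le_one hD]
        nlinarith
      have h7 := Real.log_le_log hx0 h6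
      rw [Real.log_pow, ← hl] at h7
      push_cast at h7
      linarith
    have h8 : 3 * 1 / (u * Real.log (1 / u)) ≤ a := by
      have h9 : 0 < Real.log (1 / u) := by linarith
      rw [div_le_iff₀ (by positivity)]
      calc (3 : ℝ) * 1 = a * (u * (l / 2)) := by rw [ha]; nlinarith
        _ ≤ a * (u * Real.log (1 / u)) := by
            apply mul_le_mul_of_nonneg_left _ ha0.le
            exact mul_le_mul_of_nonneg_left hlog hu0.le
    rw [hS, ← ha, mul_div_assoc]
    nlinarith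

/-- a polynomial is smaller than the second term -/
theorem poly {κ η A : ℝ} (hκ : 0 < κ) (hη : 0 < η) (hA : 0 < A) (n : ℕ) :
    ∀ᶠ X : ℝ in atTop, A * (X + A) ^ n ≤ Real.exp (η * √(24 * κ * X / Real.log X)) := by
  have hc : (0 : ℝ) < 24 * κ * η ^ 2 / ((2 * n + 1 : ℕ) : ℝ) ^ 2 := by positivity
  have e1 := (Real.isLittleO_pow_log_id_atTop (n := 3)).bound hc
  filter_upwards [e1, eventually_ge_atTop A, eventually_ge_atTop (2 : ℝ),
    Real.tendsto_log_atTop.eventually_ge_atTop 1] with X h1 h2 h3 h4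
  have hX0 : 0 < X := by linarith
  have hl0 : 0 < Real.log X := by linarith
  rw [Real.norm_of_nonneg (by positivity), id, Real.norm_of_nonneg hX0.le] at h1
  have h5 : A * (X + A) ^ n ≤ X ^ (2 * n + 1) := by
    calc A * (X + A) ^ n ≤ X * (X ^ 2) ^ n := by
          apply mul_le_mul h2 (pow_le_pow_left₀ (by linarith) (by nlinarith) n) (by positivity)
            hX0.le
      _ = X ^ (2 * n + 1) := by rw [← pow_mul]; ring
  refine h5.trans ?_
  have h6 : X ^ (2 * n + 1) = Real.exp (((2 * n + 1 : ℕ) : ℝ) * Real.log X) := by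
    rw [← Real.log_pow, Real.exp_log (by positivity)]
  rw [h6]
  apply Real.exp_le_exp.2
  have h7 : ((2 * n + 1 : ℕ) : ℝ) * Real.log X / η ≤ √(24 * κ * X / Real.log X) := by
    apply Real.le_sqrt_of_sq_le
    rw [le_div_iff₀ hl0, div_pow, mul_pow]
    have hN : (0 : ℝ) < ((2 * n + 1 : ℕ) : ℝ) := by positivity
    rw [div_mul_eq_mul_div, div_le_iff₀ (by positivity)]
    have h8 : Real.log X ^ 3 * ((2 * n + 1 : ℕ) : ℝ) ^ 2 ≤ 24 * κ * η ^ 2 * X := by
      calc Real.log X ^ 3 * ((2 * n + 1 : ℕ) : ℝ) ^ 2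
          ≤ (24 * κ * η ^ 2 / ((2 * n + 1 : ℕ) : ℝ) ^ 2 * X) * ((2 * n + 1 : ℕ) : ℝ) ^ 2 :=
            mul_le_mul_of_nonneg_right h1 (by positivity)
        _ = 24 * κ * η ^ 2 * X := by field_simp
    nlinarith
  rw [div_le_iff₀ hη] at h7
  linarith

/-- growth of the second term -/
theorem S_mono {κ x y : ℝ} (hκ : 0 < κ) (hx : 3 ≤ x) (hxy : x ≤ y) :
    √(24 * κ * x / Real.log x) ≤ √(24 * κ * y / Real.log y) := by
  apply Real.sqrt_le_sqrt
  have he := Real.exp_one_lt_d9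
  have h1 := Real.log_div_self_antitoneOn (show x ∈ {x | Real.exp 1 ≤ x} by
    show Real.exp 1 ≤ x
    linarith) (show y ∈ {x | Real.exp 1 ≤ x} by
    show Real.exp 1 ≤ y
    linarith) hxy
  simp only at h1
  have hx0 : 0 < x := by linarith
  have hy0 : 0 < y := by linarith
  have hlx : 0 < Real.log x := Real.log_pos (by linarith)
  have hly : 0 < Real.log y := Real.log_pos (by linarith)
  rw [div_le_div_iff₀ hy0 hx0] at h1
  rw [div_le_div_iff₀ hlx hly]
  have : 0 < 24 * κ := by positivity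
  nlinarith

theorem S_succ {κ X : ℝ} (hκ : 0 < κ) (hX : 3 ≤ X) :
    √(24 * κ * (X + 1) / Real.log (X + 1)) ≤ (1 + 1 / X) * √(24 * κ * X / Real.log X) := by
  have hX0 : 0 < X := by linarith
  have hl : 0 < Real.log X := Real.log_pos (by linarith)
  have hl1 : Real.log X ≤ Real.log (X + 1) := Real.log_le_log hX0 (by linarith)
  have h1 : (1 + 1 / X) * √(24 * κ * X / Real.log X) =
      √((1 + 1 / X) ^ 2 * (24 * κ * X / Real.log X)) := by
    rw [Real.sqrt_mul (by positivity), Real.sqrt_sq (by positivity)]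
  rw [h1]
  apply Real.sqrt_le_sqrt
  calc 24 * κ * (X + 1) / Real.log (X + 1) ≤ 24 * κ * (X + 1) / Real.log X :=
        div_le_div_of_nonneg_left (by positivity) hl hl1
    _ = (1 + 1 / X) * (24 * κ * X / Real.log X) := by field_simp
    _ ≤ (1 + 1 / X) ^ 2 * (24 * κ * X / Real.log X) := by
        apply mul_le_mul_of_nonneg_right _ (by positivity)
        have : 0 < 1 / X := by positivity
        nlinarith

theorem up (K : Type) [Field K] [NumberField K] (h1 : S_CELL K) (h2 : S_GUP K) (h3 : S_BIG K) :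
    S_UP K := by
  classical
  intro κ ε C₀ hκ hκ1 hε hC₀
  obtain ⟨r, hr⟩ : ∃ r : ℕ, r = Fintype.card (InfinitePlace K) := ⟨_, rfl⟩
  obtain ⟨C, hC, hcell⟩ := h1
  obtain ⟨δ, hδ⟩ : ∃ δ : ℝ, δ = (1 - κ) / 2 := ⟨_, rfl⟩
  have hδ0 : 0 < δ := by rw [hδ]; linarith
  obtain ⟨D, hD, hbig⟩ := h3 (3 - κ - δ) (δ / 2) (by rw [hδ]; linarith) (by linarith)
    (by linarith)
  obtain ⟨u₀, hu₀, hu₀1, hgup⟩ := h2 1 0 (ε / 2) one_pos le_rfl (by norm_num) (by linarith)
  obtain ⟨m₀, hm₀3, hm₀⟩ := num hκ (half_pos hε) hu₀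
  obtain ⟨A0, hA0⟩ : ∃ A0 : ℝ, A0 = C * (1 + Real.exp (12 * r)) * Real.exp (1 + C₀ + 7 * r) :=
    ⟨_, rfl⟩
  have hA00 : 0 < A0 := by rw [hA0]; positivity
  obtain ⟨A, hA⟩ : ∃ A : ℝ, A = D + C * (Real.exp (2 * m₀) + 1) + 3 ^ r * A0 * Real.exp 2 +
    (6 * r + 3) := ⟨_, rfl⟩
  have hr0 : (0 : ℝ) ≤ r := Nat.cast_nonneg _
  have hQ1 : 0 < D + C * (Real.exp (2 * m₀) + 1) := by positivity
  have hQ2 : 0 < 3 ^ r * A0 * Real.exp 2 := by positivity
  have hA3 : 6 * (r : ℝ) + 3 ≤ A := by rw [hA]; linarith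
  have hApos : 0 < A := by linarith
  have ev := (poly hκ (show 0 < ε / 4 by linarith) hApos (r + 1)).and
    ((eventually_ge_atTop (3 : ℝ)).and (eventually_ge_atTop ((1 + ε / 4) / (ε / 4))))
  obtain ⟨X₀, hX₀⟩ := eventually_atTop.1 ev
  refine ⟨max X₀ 2, lt_max_of_lt_right (by norm_num), fun X F hX hF => ?_⟩
  obtain ⟨hp, hX3, hXε⟩ := hX₀ X ((le_max_left _ _).trans hX)
  have hX0 : 0 < X := by linarith
  obtain ⟨S, hS⟩ : ∃ S : ℝ, S = √(24 * κ * X / Real.log X) := ⟨_, rfl⟩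
  have hS0 : 0 ≤ S := by rw [hS]; exact Real.sqrt_nonneg _
  rw [← hS] at hp ⊢
  -- the choice of the ideals
  have hP' : ∀ x : K, ∃ P : Fin 3 → Idl K, x ∈ F → IsP ∅ x P ∧
      tr P ≤ (3 - κ) * ht x + C₀ := by
    intro x
    by_cases hx : x ∈ F
    · obtain ⟨P, hP⟩ := (hF x hx).2.2
      exact ⟨P, fun _ => hP⟩
    · exact ⟨0, fun h => absurd h hx⟩
  choose P hP using hP'
  -- the three parts
  have hA' : ((#{x ∈ F | tr (P x) ≤ (3 - κ - δ) * ht x} : ℕ) : ℝ) ≤
      D * Real.exp ((2 - κ) * X) := by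
    refine (hbig X _ hX0.le ?_).trans ?_
    · intro x hx
      rw [mem_filter] at hx
      exact ⟨(hF x hx.1).1, (hF x hx.1).2.1, P x, (hP x hx.1).1, hx.2⟩
    · apply mul_le_mul_of_nonneg_left _ hD.le
      apply Real.exp_le_exp.2
      nlinarith
  have hB' : ((#{x ∈ F | ht x ≤ m₀} : ℕ) : ℝ) ≤ C * (Real.exp (2 * m₀) + 1) := by
    have := hcell m₀ 0 (fun _ => 1) (fun _ => 0) {x ∈ F | ht x ≤ m₀} (Nat.cast_nonneg _)
      (fun _ => le_rfl) (by
        intro x hx
        rw [mem_filter] at hx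
        refine ⟨(hF x hx.1).1, hx.2, fun w => ?_, P x, (hP x hx.1).1, fun l => ?_⟩
        · unfold lm
          rw [L_one, map_one, div_one]
          exact mul_nonneg (mt_pos _).le (Real.log_nonneg (le_max_right _ _))
        · exact bot_le)
    have e1 : tl (0 : Fin 3 → Idl K) = 0 := by simp [tl]
    rw [e1] at this
    simpa using this
  set Fc : Finset K := {x ∈ F | ¬ (tr (P x) ≤ (3 - κ - δ) * ht x) ∧ ¬ (ht x ≤ m₀)} with hFc
  have hcov : (F.card : ℝ) ≤ ((#{x ∈ F | tr (P x) ≤ (3 - κ - δ) * ht x} : ℕ) : ℝ) +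
      ((#{x ∈ F | ht x ≤ m₀} : ℕ) : ℝ) + (Fc.card : ℝ) := by
    have hsub : F ⊆ ({x ∈ F | tr (P x) ≤ (3 - κ - δ) * ht x} ∪ {x ∈ F | ht x ≤ m₀}) ∪ Fc := by
      intro x hx
      rw [hFc, mem_union, mem_union, mem_filter, mem_filter, mem_filter]
      tauto
    have h4 := (card_le_card hsub).trans ((card_union_le _ _).trans
      (Nat.add_le_add_right (card_union_le _ _) _))
    exact_mod_cast h4
  -- the heights about `m`
  obtain ⟨M, hM⟩ : ∃ M : ℝ, M = (3 : ℝ) ^ r * (X + A) ^ r * (A0 *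
      Real.exp ((2 - κ) * (X + 1) + (1 + ε / 2) * S)) := ⟨_, rfl⟩
  have hM0 : 0 ≤ M := by rw [hM]; positivity
  have hfib : ∀ m ∈ range (⌈X⌉₊ + 1), ((#{x ∈ Fc | ⌈ht x⌉₊ = m} : ℕ) : ℝ) ≤ M := by
    intro m hm
    rw [mem_range] at hm
    by_cases hmm : m ≤ m₀
    · have : {x ∈ Fc | ⌈ht x⌉₊ = m} = (∅ : Finset K) := by
        rw [Finset.filter_eq_empty_iff]
        intro x hx he
        rw [hFc, mem_filter] at hx
        apply hx.2.2
        refine (Nat.le_ceil _).trans ?_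
        rw [he]
        exact_mod_cast hmm
      rw [this, card_empty]
      simpa using hM0
    · push Not at hmm
      have hmX : (m : ℝ) ≤ X + 1 := by
        have h5 : m ≤ ⌈X⌉₊ := by omega
        have h6 := (Nat.ceil_lt_add_one hX0.le).le
        have h7 : (m : ℝ) ≤ (⌈X⌉₊ : ℝ) := by exact_mod_cast h5
        linarith
      have hm3 : (3 : ℝ) ≤ m := by
        have : 3 ≤ m := by omega
        exact_mod_cast this
      obtain ⟨u, hu0, huu, hu1, hu⟩ := hm₀ m hmm.le
      have hc := cellm hC hcell (κ := κ) (δ := δ) (C₀ := C₀) (u := u)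
        (G := Real.exp ((1 + ε / 2) * (3 * 1) / (u * Real.log (1 / u)))) hκ hκ1.le
        (by rw [hδ]; linarith) hC₀ hu0 hu1 (by
          intro F' hF'
          have h8 := hgup u hu0 huu F' hF'
          refine le_trans (le_of_eq (Finset.sum_congr rfl fun E _ => ?_)) h8
          rw [one_pow, one_mul]
          congr 1
          ring) hr m {x ∈ Fc | ⌈ht x⌉₊ = m} (by
          intro x hx
          rw [mem_filter, hFc, mem_filter] at hx
          obtain ⟨⟨hxF, hx1, hx2⟩, hx3⟩ := hx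
          push Not at hx1 hx2
          refine ⟨(hF x hxF).1, ?_, ?_, P x, (hP x hxF).1, (hP x hxF).2, hx1.le⟩
          · have := (Nat.ceil_lt_add_one (ht_nonneg x)).le
            rw [hx3] at this
            linarith
          · rw [← hx3]
            exact Nat.le_ceil _)
      refine hc.trans ?_
      rw [hM, ← hA0]
      have g1 : ((m : ℝ) + 6 * r + 1) ^ r ≤ (X + A) ^ r :=
        pow_le_pow_left₀ (by positivity) (by linarith) r
      have g2 : Real.exp ((2 - κ) * m + u * κ * m) *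
          Real.exp ((1 + ε / 2) * (3 * 1) / (u * Real.log (1 / u))) ≤
          Real.exp ((2 - κ) * (X + 1) + (1 + ε / 2) * S) := by
        rw [← Real.exp_add]
        apply Real.exp_le_exp.2
        have g3 : (2 - κ) * (m : ℝ) ≤ (2 - κ) * (X + 1) :=
          mul_le_mul_of_nonneg_left hmX (by linarith)
        have g4 := S_mono hκ hm3 hmX
        have g5 := S_succ hκ hX3
        rw [← hS] at g5
        have g6 : (1 + ε / 2 / 2) * √(24 * κ * m / Real.log m) ≤
            (1 + ε / 2 / 2) * ((1 + 1 / X) * S) :=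
          mul_le_mul_of_nonneg_left (g4.trans g5) (by positivity)
        have g7 : (1 + ε / 2 / 2) * ((1 + 1 / X) * S) ≤ (1 + ε / 2) * S := by
          rw [← mul_assoc]
          apply mul_le_mul_of_nonneg_right _ hS0
          have g8 : (1 + ε / 4) * (1 / X) ≤ ε / 4 := by
            rw [mul_one_div, div_le_iff₀ hX0]
            rw [div_le_iff₀ (by linarith)] at hXε
            linarith
          nlinarith
        linarith
      calc (3 : ℝ) ^ r * ((m : ℝ) + 6 * r + 1) ^ r * (A0 * Real.exp ((2 - κ) * m + u * κ * m) *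
            Real.exp ((1 + ε / 2) * (3 * 1) / (u * Real.log (1 / u))))
          ≤ (3 : ℝ) ^ r * (X + A) ^ r * (A0 * Real.exp ((2 - κ) * m + u * κ * m) *
            Real.exp ((1 + ε / 2) * (3 * 1) / (u * Real.log (1 / u)))) := by
            apply mul_le_mul_of_nonneg_right _ (by positivity)
            exact mul_le_mul_of_nonneg_left g1 (by positivity)
        _ = (3 : ℝ) ^ r * (X + A) ^ r * (A0 * (Real.exp ((2 - κ) * m + u * κ * m) *
            Real.exp ((1 + ε / 2) * (3 * 1) / (u * Real.log (1 / u))))) := by ring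
        _ ≤ _ := by
            apply mul_le_mul_of_nonneg_left _ (by positivity)
            exact mul_le_mul_of_nonneg_left g2 hA00.le
  have hFcc : (Fc.card : ℝ) ≤ (X + 2) * M := by
    rw [card_eq_sum_card_fiberwise (f := fun x => ⌈ht x⌉₊) (t := range (⌈X⌉₊ + 1)) (by
      intro x hx
      have hx' : x ∈ Fc := hx
      rw [hFc, mem_filter] at hx'
      have h5 : ⌈ht x⌉₊ ≤ ⌈X⌉₊ := Nat.ceil_le_ceil (hF x hx'.1).2.1
      simp only [coe_range, Set.mem_Iio]
      omega)]
    push_cast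
    refine (Finset.sum_le_sum hfib).trans ?_
    rw [Finset.sum_const, nsmul_eq_mul, card_range]
    apply mul_le_mul_of_nonneg_right _ hM0
    have h6 := (Nat.ceil_lt_add_one hX0.le).le
    push_cast
    linarith
  -- the sum
  have hE1 : 1 ≤ Real.exp ((2 - κ) * X) := Real.one_le_exp (by nlinarith)
  have hE2 : 1 ≤ Real.exp ((1 + ε / 2) * S) := Real.one_le_exp (by positivity)
  have hpow : 1 ≤ (X + A) ^ (r + 1) := one_le_pow₀ (by linarith)
  have t1 : D * Real.exp ((2 - κ) * X) + C * (Real.exp (2 * m₀) + 1) ≤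
      (D + C * (Real.exp (2 * m₀) + 1)) * ((X + A) ^ (r + 1) *
        (Real.exp ((2 - κ) * X) * Real.exp ((1 + ε / 2) * S))) := by
    have q1 : Real.exp ((2 - κ) * X) ≤ (X + A) ^ (r + 1) *
        (Real.exp ((2 - κ) * X) * Real.exp ((1 + ε / 2) * S)) := by
      calc Real.exp ((2 - κ) * X) = 1 * (Real.exp ((2 - κ) * X) * 1) := by ring
        _ ≤ _ := by
            apply mul_le_mul hpow _ (by positivity) (by positivity)
            exact mul_le_mul_of_nonneg_left hE2 (by positivity)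
    have q2 := hE1.trans q1
    have q3 : 0 ≤ C * (Real.exp (2 * m₀) + 1) := by positivity
    have q4 := mul_le_mul_of_nonneg_left q1 hD.le
    have q5 := mul_le_mul_of_nonneg_left q2 q3
    linarith
  have t2 : (X + 2) * M ≤ (3 ^ r * A0 * Real.exp 2) * ((X + A) ^ (r + 1) *
        (Real.exp ((2 - κ) * X) * Real.exp ((1 + ε / 2) * S))) := by
    have q1 : Real.exp ((2 - κ) * (X + 1) + (1 + ε / 2) * S) ≤
        Real.exp 2 * (Real.exp ((2 - κ) * X) * Real.exp ((1 + ε / 2) * S)) := by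
      rw [← Real.exp_add, ← Real.exp_add]
      apply Real.exp_le_exp.2
      linarith
    rw [hM]
    calc (X + 2) * ((3 : ℝ) ^ r * (X + A) ^ r * (A0 *
          Real.exp ((2 - κ) * (X + 1) + (1 + ε / 2) * S)))
        ≤ (X + A) * ((3 : ℝ) ^ r * (X + A) ^ r * (A0 *
          (Real.exp 2 * (Real.exp ((2 - κ) * X) * Real.exp ((1 + ε / 2) * S))))) := by
          apply mul_le_mul (by linarith) _ (by positivity) (by positivity)
          apply mul_le_mul_of_nonneg_left _ (by positivity)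
          exact mul_le_mul_of_nonneg_left q1 hA00.le
      _ = _ := by ring
  have t3 : (F.card : ℝ) ≤ (A * (X + A) ^ (r + 1)) *
      (Real.exp ((2 - κ) * X) * Real.exp ((1 + ε / 2) * S)) := by
    have q1 : (D + C * (Real.exp (2 * m₀) + 1)) + 3 ^ r * A0 * Real.exp 2 ≤ A := by
      rw [hA]; linarith
    have q2 : 0 ≤ (X + A) ^ (r + 1) *
        (Real.exp ((2 - κ) * X) * Real.exp ((1 + ε / 2) * S)) := by positivity
    have q3 := mul_le_mul_of_nonneg_right q1 q2
    linarith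
  refine t3.trans ((mul_le_mul_of_nonneg_right hp (by positivity)).trans ?_)
  rw [← Real.exp_add, ← Real.exp_add]
  apply Real.exp_le_exp.2
  nlinarith

end Pool.Agent.N776.RS
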